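import Pool.Agent.Helper88.AD.Basic

/-! Packet AD-TRACE: trace weight systems on the circle. -/

namespace Pool.Agent.Helper89.AD

open Pool.Agent.Helper88.AD Finset

section Upd

variable {K R : Type} [Fintype K] [CommRing R] {d : ℕ}

theorem sum_update (x : Fin d) (F : (Fin d → K) → R) :
    ∑ κ, ∑ k, F (Function.update κ x k) = (Fintype.card K : R) * ∑ κ, F κ := by
  classical
  rw [← Fintype.sum_prod_type' (fun κ k => F (Function.update κ x k))]
  have hinv : Function.Involutive
      (fun p : (Fin d → K) × K => (Function.update p.1 x p.2, p.1 x)) := by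
    rintro ⟨κ, k⟩
    simp
  rw [← Equiv.sum_comp hinv.toPerm]
  simp only [Function.Involutive.coe_toPerm, Function.update_idem, Function.update_eq_self]
  rw [Fintype.sum_prod_type]
  simp [Finset.mul_sum]

theorem sum_zero_of_update [Algebra ℚ R] (x y : Fin d) (F : (Fin d → K) → R)
    (h : ∀ κ, ∑ k, ∑ l, F (Function.update (Function.update κ x k) y l) = 0) :
    ∑ κ, F κ = 0 := by
  classical
  rcases isEmpty_or_nonempty K with hK | hK
  · have : IsEmpty (Fin d → K) := ⟨fun κ => hK.elim (κ x)⟩
    simp
  · have h1 : ∑ κ, ∑ k, ∑ l, F (Function.update (Function.update κ x k) y l) =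
        (Fintype.card K : R) * ((Fintype.card K : R) * ∑ κ, F κ) := by
      rw [← sum_update y F]
      rw [← sum_update x (fun κ => ∑ l, F (Function.update κ y l))]
    rw [Finset.sum_eq_zero (fun κ _ => h κ)] at h1
    have hc : (Fintype.card K : ℚ) ≠ 0 := by
      exact_mod_cast Fintype.card_ne_zero
    have key : ∀ S : R, (Fintype.card K : R) * S = 0 → S = 0 := by
      intro S hS
      have h2 : algebraMap ℚ R ((Fintype.card K : ℚ)⁻¹) * ((Fintype.card K : R) * S) = S := by
        rw [← mul_assoc, ← map_natCast (algebraMap ℚ R) (Fintype.card K), ← map_mul,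
          inv_mul_cancel₀ hc, map_one, one_mul]
      rw [← h2, hS, mul_zero]
    exact key _ (key _ h1.symm)

end Upd

section Tri

variable {ι R : Type} [Fintype ι] [DecidableEq ι] [CommRing R]

/-- The trilinear form. -/
def tri (U : Fin 4 → Matrix ι ι R) :
    MultilinearMap R (fun _ : Fin 3 => Matrix ι ι R) R where
  toFun M := (U 0 * M 0 * U 1 * M 1 * U 2 * M 2 * U 3).trace
  map_update_add' {_} m i x y := by
    have : ‹DecidableEq (Fin 3)› = instDecidableEqFin 3 := Subsingleton.elim _ _
    subst this
    fin_cases i <;>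
      simp [Function.update, Matrix.mul_add, Matrix.add_mul]
  map_update_smul' {_} m i c x := by
    have : ‹DecidableEq (Fin 3)› = instDecidableEqFin 3 := Subsingleton.elim _ _
    subst this
    fin_cases i <;>
      simp [Function.update]

theorem multi_expand (g : MultilinearMap R (fun _ : Fin 3 => Matrix ι ι R) R)
    (M : Fin 3 → Matrix ι ι R) :
    g M = ∑ r : Fin 3 → ι × ι, (M 0 (r 0).1 (r 0).2 * M 1 (r 1).1 (r 1).2 *
      M 2 (r 2).1 (r 2).2) * g (fun i => Matrix.single (r i).1 (r i).2 1) := by
  have h1 : M = fun i => ∑ p : ι × ι, (M i p.1 p.2) • Matrix.single p.1 p.2 (1 : R) := by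
    funext i
    rw [Fintype.sum_prod_type]
    conv_lhs => rw [Matrix.matrix_eq_sum_single (M i)]
    simp [Matrix.smul_single]
  conv_lhs => rw [h1]
  rw [MultilinearMap.map_sum g (fun i (p : ι × ι) => (M i p.1 p.2) • Matrix.single p.1 p.2 (1 : R))]
  refine Finset.sum_congr rfl fun r _ => ?_
  rw [MultilinearMap.map_smul_univ g (fun i => M i (r i).1 (r i).2)
    (fun i => Matrix.single (r i).1 (r i).2 (1 : R)), Fin.prod_univ_three, smul_eq_mul]

omit [Fintype ι] [DecidableEq ι] in
theorem tri_upd0 (g : MultilinearMap R (fun _ : Fin 3 => Matrix ι ι R) R)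
    (P P' Q S : Matrix ι ι R) : g ![P - P', Q, S] = g ![P, Q, S] - g ![P', Q, S] := by
  have h := g.map_update_sub ![P, Q, S] 0 P P'
  have e : ∀ X : Matrix ι ι R, Function.update ![P, Q, S] 0 X = ![X, Q, S] := by
    intro X; funext i; fin_cases i <;> rfl
  rw [e, e, e] at h
  exact h

omit [Fintype ι] [DecidableEq ι] in
theorem tri_upd1 (g : MultilinearMap R (fun _ : Fin 3 => Matrix ι ι R) R)
    (P Q Q' S : Matrix ι ι R) : g ![P, Q - Q', S] = g ![P, Q, S] - g ![P, Q', S] := by
  have h := g.map_update_sub ![P, Q, S] 1 Q Q'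
  have e : ∀ X : Matrix ι ι R, Function.update ![P, Q, S] 1 X = ![P, X, S] := by
    intro X; funext i; fin_cases i <;> rfl
  rw [e, e, e] at h
  exact h

omit [Fintype ι] [DecidableEq ι] in
theorem tri_upd2 (g : MultilinearMap R (fun _ : Fin 3 => Matrix ι ι R) R)
    (P Q S S' : Matrix ι ι R) : g ![P, Q, S - S'] = g ![P, Q, S] - g ![P, Q, S'] := by
  have h := g.map_update_sub ![P, Q, S] 2 S S'
  have e : ∀ X : Matrix ι ι R, Function.update ![P, Q, S] 2 X = ![P, Q, X] := by
    intro X; funext i; fin_cases i <;> rfl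
  rw [e, e, e] at h
  exact h

theorem cybe_multi {K : Type} [Fintype K] {A B : K → Matrix ι ι R} (h : CYBE A B)
    (g : MultilinearMap R (fun _ : Fin 3 => Matrix ι ι R) R) :
    ∑ k, ∑ l, (g ![A k * A l - A l * A k, B k, B l] + g ![A k, B k * A l - A l * B k, B l] +
      g ![A k, A l, B k * B l - B l * B k]) = 0 := by
  have e : ∀ k l, (g ![A k * A l - A l * A k, B k, B l] + g ![A k, B k * A l - A l * B k, B l] +
      g ![A k, A l, B k * B l - B l * B k]) = ∑ r : Fin 3 → ι × ι,
      ((A k * A l - A l * A k) (r 0).1 (r 0).2 * B k (r 1).1 (r 1).2 * B l (r 2).1 (r 2).2 +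
      A k (r 0).1 (r 0).2 * (B k * A l - A l * B k) (r 1).1 (r 1).2 * B l (r 2).1 (r 2).2 +
      A k (r 0).1 (r 0).2 * A l (r 1).1 (r 1).2 * (B k * B l - B l * B k) (r 2).1 (r 2).2) *
        g (fun i => Matrix.single (r i).1 (r i).2 1) := by
    intro k l
    rw [multi_expand g, multi_expand g ![A k, B k * A l - A l * B k, B l],
      multi_expand g ![A k, A l, B k * B l - B l * B k], ← Finset.sum_add_distrib,
      ← Finset.sum_add_distrib]
    refine Finset.sum_congr rfl fun r _ => ?_
    simp only [Matrix.cons_val_zero, Matrix.cons_val_one, Matrix.cons_val]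
    ring
  simp only [e]
  have e2 : ∀ k, ∑ l, ∑ r : Fin 3 → ι × ι,
      ((A k * A l - A l * A k) (r 0).1 (r 0).2 * B k (r 1).1 (r 1).2 * B l (r 2).1 (r 2).2 +
      A k (r 0).1 (r 0).2 * (B k * A l - A l * B k) (r 1).1 (r 1).2 * B l (r 2).1 (r 2).2 +
      A k (r 0).1 (r 0).2 * A l (r 1).1 (r 1).2 * (B k * B l - B l * B k) (r 2).1 (r 2).2) *
        g (fun i => Matrix.single (r i).1 (r i).2 1) = ∑ r : Fin 3 → ι × ι, ∑ l,
      ((A k * A l - A l * A k) (r 0).1 (r 0).2 * B k (r 1).1 (r 1).2 * B l (r 2).1 (r 2).2 +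
      A k (r 0).1 (r 0).2 * (B k * A l - A l * B k) (r 1).1 (r 1).2 * B l (r 2).1 (r 2).2 +
      A k (r 0).1 (r 0).2 * A l (r 1).1 (r 1).2 * (B k * B l - B l * B k) (r 2).1 (r 2).2) *
        g (fun i => Matrix.single (r i).1 (r i).2 1) := fun k => Finset.sum_comm
  simp only [e2]
  rw [Finset.sum_comm]
  refine Finset.sum_eq_zero fun r _ => ?_
  simp only [← Finset.sum_mul]
  rw [h (r 0).1 (r 0).2 (r 1).1 (r 1).2 (r 2).1 (r 2).2, zero_mul]

end Tri

section Words

variable {d : ℕ}

theorem count_pr (u : Fin 4 → List (Pt d)) (τ : Equiv.Perm (Fin 3)) (x y : Fin d)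
    (i j k l : Fin 3) (p : Pt d) : (pr u τ x y i j k l).count p =
      (u 0).count p + (u 1).count p + (u 2).count p + (u 3).count p +
        ∑ m, (ep x i j m ++ ep y k l m).count p := by
  rw [← Equiv.sum_comp τ, Fin.sum_univ_three]
  unfold pr
  simp only [List.count_append]
  omega

theorem pr_perm (u : Fin 4 → List (Pt d)) (τ : Equiv.Perm (Fin 3)) (x y : Fin d)
    {i j k l : Fin 3} (hij : i ≠ j) (hkl : k ≠ l) : (pr u τ x y i j k l).Perm
      (u 0 ++ u 1 ++ u 2 ++ u 3 ++ [(x, true), (x, false), (y, true), (y, false)]) := by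
  rw [List.perm_iff_count]
  intro p
  rw [count_pr]
  have h : ∀ (z : Fin d) (a b : Fin 3), a ≠ b → ∑ m, (ep z a b m).count p =
      [(z, true)].count p + [(z, false)].count p := by
    intro z a b hab
    have e : ∀ m, (ep z a b m).count p = (if m = a then [(z, true)].count p else 0) +
        (if m = b then [(z, false)].count p else 0) := by
      intro m
      unfold ep
      by_cases h1 : m = a
      · subst h1
        simp [hab]
      · by_cases h2 : m = b
        · subst h2
          simp [h1]
        · simp [h1, h2]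
    simp only [e, Finset.sum_add_distrib, Finset.sum_ite_eq', Finset.mem_univ, if_true]
  have h2 : ∑ m, (ep x i j m ++ ep y k l m).count p =
      ∑ m, (ep x i j m).count p + ∑ m, (ep y k l m).count p := by
    rw [← Finset.sum_add_distrib]
    exact Finset.sum_congr rfl fun m _ => List.count_append
  rw [h2, h x i j hij, h y k l hkl]
  have h3 : ([(x, true), (x, false), (y, true), (y, false)] : List (Pt d)) =
      [(x, true)] ++ [(x, false)] ++ [(y, true)] ++ [(y, false)] := rfl
  rw [h3]
  simp only [List.count_append]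
  omega

/-- If the word is a diagram, then the two arrows differ and do not occur in the words `u m`. -/
theorem pr_facts (u : Fin 4 → List (Pt d)) (x y : Fin d)
    (h : IsD (u 0 ++ u 1 ++ u 2 ++ u 3 ++ [(x, true), (x, false), (y, true), (y, false)])) :
    x ≠ y ∧ ∀ m, ∀ p ∈ u m, p.1 ≠ x ∧ p.1 ≠ y := by
  have hx : ∀ b : Bool, [(x, true), (x, false), (y, true), (y, false)].count (x, b) ≥ 1 := by
    intro b
    cases b <;> simp [List.one_le_count_iff]
  have hy : ∀ b : Bool, [(x, true), (x, false), (y, true), (y, false)].count (y, b) ≥ 1 := by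
    intro b
    cases b <;> simp [List.one_le_count_iff]
  constructor
  · rintro rfl
    have h1 := h (x, true)
    simp only [List.count_append] at h1
    have h2 : [(x, true), (x, false), (x, true), (x, false)].count (x, true) = 2 := by
      simp
    omega
  · intro m p hp
    have hp1 : (u m).count p ≥ 1 := List.one_le_count_iff.2 hp
    have h1 := h p
    simp only [List.count_append] at h1
    have h4 : (u m).count p ≤ (u 0).count p + (u 1).count p + (u 2).count p + (u 3).count p := by
      fin_cases m <;> simp <;> omega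
    have h0 : [(x, true), (x, false), (y, true), (y, false)].count p = 0 := by omega
    rcases p with ⟨z, b⟩
    constructor
    · rintro rfl
      have := hx b
      simp only at this h0
      omega
    · rintro rfl
      have := hy b
      simp only at this h0
      omega

end Words

section Val

variable {K ι R : Type} [Fintype ι] [DecidableEq ι] [CommRing R] {d : ℕ}

/-- The value of a word. -/
def val (A B : K → Matrix ι ι R) (κ : Fin d → K) (w : List (Pt d)) : Matrix ι ι R :=
  (w.map fun p : Pt d => if p.2 then A (κ p.1) else B (κ p.1)).prod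

theorem val_append (A B : K → Matrix ι ι R) (κ : Fin d → K) (w w' : List (Pt d)) :
    val A B κ (w ++ w') = val A B κ w * val A B κ w' := by
  simp [val]

theorem val_congr (A B : K → Matrix ι ι R) (κ κ' : Fin d → K) (w : List (Pt d))
    (h : ∀ p ∈ w, κ p.1 = κ' p.1) : val A B κ w = val A B κ' w := by
  unfold val
  congr 1
  apply List.map_congr_left
  intro p hp
  rw [h p hp]

/-- The matrix of an arrow end. -/
def em (A B : K → Matrix ι ι R) (k : K) (i j m : Fin 3) : Matrix ι ι R :=
  if m = i then A k else if m = j then B k else 1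

theorem val_ep (A B : K → Matrix ι ι R) (κ : Fin d → K) (x : Fin d) (i j m : Fin 3) :
    val A B κ (ep x i j m) = em A B (κ x) i j m := by
  unfold ep em val
  split_ifs <;> simp

theorem val_pr (A B : K → Matrix ι ι R) (κ : Fin d → K) (u : Fin 4 → List (Pt d))
    (τ : Equiv.Perm (Fin 3)) (x y : Fin d) (i j k l : Fin 3) :
    (val A B κ (pr u τ x y i j k l)).trace =
      ((tri fun m => val A B κ (u m)).domDomCongr τ)
        (fun m => em A B (κ x) i j m * em A B (κ y) k l m) := by
  rw [MultilinearMap.domDomCongr_apply]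
  unfold pr
  simp only [val_append, val_ep]
  rfl

theorem trw_eq [Fintype K] (A B : K → Matrix ι ι R) (w : List (Pt d)) :
    trw A B w = ∑ κ : Fin d → K, (val A B κ w).trace := rfl

theorem trw_ren [Fintype K] (A B : K → Matrix ι ι R) (σ : Equiv.Perm (Fin d))
    (w : List (Pt d)) : trw A B (ren σ w) = trw A B w := by
  rw [trw_eq, trw_eq]
  have e : ∀ κ : Fin d → K, val A B κ (ren σ w) = val A B (κ ∘ σ) w := by
    intro κ
    unfold val ren
    rw [List.map_map]
    rfl
  simp only [e]
  exact Equiv.sum_comp (Equiv.arrowCongr σ.symm (Equiv.refl K))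
    (fun κ => (val A B κ w).trace)

theorem trw_rot [Fintype K] (A B : K → Matrix ι ι R) (p : Pt d) (w : List (Pt d)) :
    trw A B (p :: w) = trw A B (w ++ [p]) := by
  rw [trw_eq, trw_eq]
  refine Finset.sum_congr rfl fun κ _ => ?_
  have e : p :: w = [p] ++ w := rfl
  rw [e, val_append, val_append, Matrix.trace_mul_comm]

/-- The six terms. -/
theorem six_zero [Fintype K] [Algebra ℚ R] {A B : K → Matrix ι ι R} (h : CYBE A B)
    (u : Fin 4 → List (Pt d)) (τ : Equiv.Perm (Fin 3)) (x y : Fin d) (hxy : x ≠ y)
    (hu : ∀ m, ∀ p ∈ u m, p.1 ≠ x ∧ p.1 ≠ y) :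
    (trw A B (pr u τ x y 0 1 0 2) - trw A B (pr u τ x y 0 2 0 1)) +
    (trw A B (pr u τ x y 0 1 1 2) - trw A B (pr u τ x y 1 2 0 1)) +
    (trw A B (pr u τ x y 0 2 1 2) - trw A B (pr u τ x y 1 2 0 2)) = 0 := by
  simp only [trw_eq, ← Finset.sum_sub_distrib, ← Finset.sum_add_distrib]
  apply sum_zero_of_update x y
  intro κ
  set g := (tri fun m => val A B κ (u m)).domDomCongr τ with hg
  have hval : ∀ (k l : K) (i j i' j' : Fin 3),
      (val A B (Function.update (Function.update κ x k) y l) (pr u τ x y i j i' j')).trace =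
        g (fun m => em A B k i j m * em A B l i' j' m) := by
    intro k l i j i' j'
    rw [val_pr]
    have e1 : (fun m => val A B (Function.update (Function.update κ x k) y l) (u m)) =
        fun m => val A B κ (u m) := by
      funext m
      apply val_congr
      intro p hp
      obtain ⟨h1, h2⟩ := hu m p hp
      rw [Function.update_of_ne h2, Function.update_of_ne h1]
    rw [e1, Function.update_self, Function.update_of_ne hxy, Function.update_self]
  simp only [hval]
  have v : ∀ (i j i' j' : Fin 3) (k l : K), (fun m => em A B k i j m * em A B l i' j' m) =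
      ![em A B k i j 0 * em A B l i' j' 0, em A B k i j 1 * em A B l i' j' 1,
        em A B k i j 2 * em A B l i' j' 2] := by
    intro i j i' j' k l
    funext m
    fin_cases m <;> rfl
  simp only [v]
  have v1 : ∀ k l : K, g ![em A B k 0 1 0 * em A B l 0 2 0, em A B k 0 1 1 * em A B l 0 2 1,
        em A B k 0 1 2 * em A B l 0 2 2] = g ![A k * A l, B k, B l] := by
    intro k l; simp [em]
  have v2 : ∀ k l : K, g ![em A B k 0 2 0 * em A B l 0 1 0, em A B k 0 2 1 * em A B l 0 1 1,
        em A B k 0 2 2 * em A B l 0 1 2] = g ![A k * A l, B l, B k] := by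
    intro k l; simp [em]
  have v3 : ∀ k l : K, g ![em A B k 0 1 0 * em A B l 1 2 0, em A B k 0 1 1 * em A B l 1 2 1,
        em A B k 0 1 2 * em A B l 1 2 2] = g ![A k, B k * A l, B l] := by
    intro k l; simp [em]
  have v4 : ∀ k l : K, g ![em A B k 1 2 0 * em A B l 0 1 0, em A B k 1 2 1 * em A B l 0 1 1,
        em A B k 1 2 2 * em A B l 0 1 2] = g ![A l, A k * B l, B k] := by
    intro k l; simp [em]
  have v5 : ∀ k l : K, g ![em A B k 0 2 0 * em A B l 1 2 0, em A B k 0 2 1 * em A B l 1 2 1,
        em A B k 0 2 2 * em A B l 1 2 2] = g ![A k, A l, B k * B l] := by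
    intro k l; simp [em]
  have v6 : ∀ k l : K, g ![em A B k 1 2 0 * em A B l 0 2 0, em A B k 1 2 1 * em A B l 0 2 1,
        em A B k 1 2 2 * em A B l 0 2 2] = g ![A l, A k, B k * B l] := by
    intro k l; simp [em]
  simp only [v1, v2, v3, v4, v5, v6, Finset.sum_add_distrib, Finset.sum_sub_distrib]
  rw [Finset.sum_comm (f := fun k l => g ![A k * A l, B l, B k]),
    Finset.sum_comm (f := fun k l => g ![A l, A k * B l, B k]),
    Finset.sum_comm (f := fun k l => g ![A l, A k, B k * B l])]
  have hc := cybe_multi h g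
  simp only [tri_upd0, tri_upd1, tri_upd2, Finset.sum_add_distrib, Finset.sum_sub_distrib] at hc
  exact hc

end Val

/-- Packet TRACE. -/
theorem stmtTrace : StmtTrace := by
  intro K ι R _ _ _ _ _ A B h d
  refine ⟨Finsupp.linearCombination ℚ (fun w : Dg d => trw A B w.1), ?_, ?_⟩
  swap
  · intro w hw
    rw [el_of hw, Finsupp.linearCombination_single, one_smul]
  set f : (Dg d →₀ ℚ) →ₗ[ℚ] R := Finsupp.linearCombination ℚ (fun w : Dg d => trw A B w.1)
    with hf
  have hel : ∀ w : List (Pt d), IsD w → f (el w) = trw A B w := by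
    intro w hw
    rw [hf, el_of hw, Finsupp.linearCombination_single, one_smul]
  have hel0 : ∀ w : List (Pt d), ¬ IsD w → f (el w) = 0 := by
    intro w hw
    rw [el_of_not hw, map_zero]
  have hle : relS d ≤ LinearMap.ker f := by
    refine sup_le (Submodule.span_le.2 (Set.union_subset ?_ ?_)) (Submodule.span_le.2 ?_)
    · rintro v ⟨w, σ, rfl⟩
      rw [SetLike.mem_coe, LinearMap.mem_ker, map_sub]
      have hiff : IsD (ren σ w) ↔ IsD w := by
        have hinj : Function.Injective (fun p : Pt d => ((σ p.1, p.2) : Pt d)) := by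
          rintro ⟨a, b⟩ ⟨a', b'⟩ hab
          simp only [Prod.mk.injEq, EmbeddingLike.apply_eq_iff_eq] at hab
          exact Prod.ext hab.1 hab.2
        constructor
        · intro H p
          have h1 := H (σ p.1, p.2)
          unfold ren at h1
          rw [← List.count_map_of_injective w (fun p : Pt d => ((σ p.1, p.2) : Pt d)) hinj p]
          exact h1
        · intro H p
          have h1 := H (σ.symm p.1, p.2)
          rw [← List.count_map_of_injective w (fun p : Pt d => ((σ p.1, p.2) : Pt d)) hinj] at h1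
          simp only [Equiv.apply_symm_apply] at h1
          exact h1
      by_cases hw : IsD w
      · rw [hel _ hw, hel _ (hiff.2 hw), trw_ren, sub_self]
      · rw [hel0 _ hw, hel0 _ (fun H => hw (hiff.1 H)), sub_self]
    · rintro v ⟨u, τ, x, y, rfl⟩
      rw [SetLike.mem_coe, LinearMap.mem_ker]
      unfold sixT
      simp only [map_add, map_sub]
      have q1 := isD_perm (pr_perm u τ x y (i := 0) (j := 1) (k := 0) (l := 2) (by decide) (by decide))
      have q2 := isD_perm (pr_perm u τ x y (i := 0) (j := 2) (k := 0) (l := 1) (by decide) (by decide))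
      have q3 := isD_perm (pr_perm u τ x y (i := 0) (j := 1) (k := 1) (l := 2) (by decide) (by decide))
      have q4 := isD_perm (pr_perm u τ x y (i := 1) (j := 2) (k := 0) (l := 1) (by decide) (by decide))
      have q5 := isD_perm (pr_perm u τ x y (i := 0) (j := 2) (k := 1) (l := 2) (by decide) (by decide))
      have q6 := isD_perm (pr_perm u τ x y (i := 1) (j := 2) (k := 0) (l := 2) (by decide) (by decide))
      by_cases hD : IsD (u 0 ++ u 1 ++ u 2 ++ u 3 ++
          [(x, true), (x, false), (y, true), (y, false)])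
      · rw [hel _ (q1.2 hD), hel _ (q2.2 hD), hel _ (q3.2 hD), hel _ (q4.2 hD),
          hel _ (q5.2 hD), hel _ (q6.2 hD)]
        obtain ⟨hxy, hu⟩ := pr_facts u x y hD
        exact six_zero h u τ x y hxy hu
      · rw [hel0 _ (fun H => hD (q1.1 H)), hel0 _ (fun H => hD (q2.1 H)),
          hel0 _ (fun H => hD (q3.1 H)), hel0 _ (fun H => hD (q4.1 H)),
          hel0 _ (fun H => hD (q5.1 H)), hel0 _ (fun H => hD (q6.1 H))]
        simp
    · rintro v ⟨p, w, rfl⟩
      rw [SetLike.mem_coe, LinearMap.mem_ker, map_sub]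
      have hp : (p :: w).Perm (w ++ [p]) := by
        have := List.perm_append_comm (l₁ := [p]) (l₂ := w)
        exact this
      have hiff := isD_perm hp
      by_cases hw : IsD (p :: w)
      · rw [hel _ hw, hel _ (hiff.1 hw), trw_rot, sub_self]
      · rw [hel0 _ hw, hel0 _ (fun H => hw (hiff.2 H)), sub_self]
  intro x hx
  exact LinearMap.mem_ker.1 (hle hx)

end Pool.Agent.Helper89.AD
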